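import Pool.Agent.Mg.F09d684a.Gd63bb5

namespace Pool.Agent.Results.MP_09d684_lc.Full

open Pool.Agent.MP_09d684_lc

universe u

/-- Over a transitive model `M` of `ZF` with `AD_ℝ`, or with `AD⁺` and `V = L(P(ℝ))`, forcing
with `P(ω × ω) / (Fin ⊗ Fin)` preserves all strong partition cardinals. -/
theorem result (M : Set ZFSet.{u}) (hM : IsZF M) (hD : ADR M ∨ (ADplus M ∧ VeqL M))
    (G : Set ZFSet.{u}) (hG : Generic M G) (κ : ZFSet.{u}) (hκ : StrongPartition M κ) :
    StrongPartition (Ext M G) κ :=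
  hD.elim (fun h => preserves_adr M hM h κ hκ G hG)
    fun h => preserves M hM (Or.inr h.1) κ hκ (Or.inr h.2) G hG

end Pool.Agent.Results.MP_09d684_lc.Full
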