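import Pool.Agent.MP_09d684_lc.Tr.Main

namespace Pool.Agent.Results.MP_09d684_lc.Products

open Pool.Agent.MP_09d684_lc

universe u

/-- Let `M` be a transitive model of `ZF` with `AD_ℝ`, or with `AD⁺` and `V = L(P(ℝ))`. Let `T ∈ M`
code the inner nodes of a sequence of nontrivial well-founded trees, with roots `[n]`, and let `G`
be generic over `M` for the full-support product of the quotients by the Fubini powers of `Fin`
along these trees. Then every strong partition cardinal of `M` is a strong partition cardinal in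
every `N` between `M` and `M[G]`. -/
theorem result (M : Set ZFSet.{u}) (hM : IsZF M) (hD : ADR M ∨ (ADplus M ∧ VeqL M))
    (T : ZFSet.{u}) (hT : T ∈ M)
    (wf : WellFounded fun s' s : List ℕ => s ∈ Tr.nodes T ∧ ∃ n, s' = s ++ [n])
    (_root : ∀ n, [n] ∈ Tr.nodes T) (G : Set ZFSet.{u}) (hG : Tr.Generic M (Tr.nodes T) G)
    (N : Set ZFSet.{u}) (h₁ : M ⊆ N) (h₂ : N ⊆ Ext M G) (κ : ZFSet.{u})
    (hκ : StrongPartition M κ) : StrongPartition N κ :=
  (Mdl.Pw.exists_pj (g := ⟨M, hM⟩) ⟨T, hT⟩ wf hG).elim fun P =>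
    Mdl.Pw.preserve_mid P hD κ hκ N h₁ h₂

end Pool.Agent.Results.MP_09d684_lc.Products
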